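import Pool.Agent.W823.QT.Stm

/-! QT-FAT: reverse Fatou for events. -/

set_option autoImplicit false

open MeasureTheory Filter Topology
open scoped ENNReal

namespace Pool.Agent.W863.QTFAT

open Pool.Agent.W823.QT

universe u

theorem main : FAT_T.{u} := by
  intro Ω _ P _ E hE δ hδ
  have h1 : {ω | ∃ᶠ n in atTop, ω ∈ E n} = ⋂ k : ℕ, ⋃ n : ℕ, ⋃ _ : k ≤ n, E n := by
    ext ω
    simp only [Set.mem_ofPred_eq, frequently_atTop, Set.mem_iInter, Set.mem_iUnion, exists_prop]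
  rw [h1]
  have hanti : Antitone (fun k : ℕ => ⋃ n : ℕ, ⋃ _ : k ≤ n, E n) := by
    intro a b hab ω hω
    simp only [Set.mem_iUnion, exists_prop] at hω ⊢
    obtain ⟨n, hn, h⟩ := hω
    exact ⟨n, hab.trans hn, h⟩
  have hnull : ∀ k : ℕ, NullMeasurableSet (⋃ n : ℕ, ⋃ _ : k ≤ n, E n) P := fun k =>
    NullMeasurableSet.iUnion fun n => NullMeasurableSet.iUnion fun _ => hE n
  have h2 := tendsto_measure_iInter_atTop (μ := P) hnull hanti ⟨0, measure_ne_top _ _⟩
  refine ge_of_tendsto' h2 fun k => ?_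
  obtain ⟨m, hm⟩ := eventually_atTop.1 hδ
  refine (hm (max k m) (le_max_right _ _)).trans (measure_mono ?_)
  intro ω hω
  simp only [Set.mem_iUnion, exists_prop]
  exact ⟨max k m, le_max_left _ _, hω⟩

end Pool.Agent.W863.QTFAT
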