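import Pool.Agent.W217.BE.Stm

/-! BE-GRD: the induction over the number of variables. -/

set_option autoImplicit false

namespace Pool.Agent.W863.BEGRD

open Pool.Agent.W217.BE

theorem sub_HB (hI : ISO) {A κ : Type} [CommRing A] [Field κ] (χ : A →+* κ) (M : Type)
    [AddCommGroup M] [Module A M] (b : ℕ → ℕ) (N : Submodule A M)
    (h : ∀ N' : Submodule A M, NZ χ N' → HB χ N' b) :
    ∀ N'' : Submodule A N, NZ χ N'' → HB χ N'' b := by
  intro N'' hN''
  let E : N'' ≃ₗ[A] (N''.map N.subtype) := Submodule.equivSubtypeMap N N''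
  have h1 : NZ χ (N''.map N.subtype) := by
    obtain ⟨x, hx⟩ := hN''
    refine ⟨E x, fun s hs h0 => hx s hs ?_⟩
    rw [← map_smul] at h0
    exact (LinearEquiv.map_eq_zero_iff E).1 h0
  exact hI A A κ (RingEquiv.refl A) χ χ _ _ E.symm.toAddEquiv b (fun s => rfl)
    (fun s x => E.symm.map_smul s x) (h _ h1)

theorem fse_rename {A : Type} [CommRing A] (k : ℕ) (q : MvPolynomial (Fin k) A) :
    MvPolynomial.finSuccEquiv A k (MvPolynomial.rename Fin.succ q) = Polynomial.C q := by
  induction q using MvPolynomial.induction_on with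
  | C a =>
    rw [MvPolynomial.rename_C]
    simp [MvPolynomial.finSuccEquiv_apply]
  | add p q hp hq => rw [map_add, map_add, hp, hq, map_add]
  | mul_X p i hp =>
    rw [map_mul, map_mul, hp, MvPolynomial.rename_X, MvPolynomial.finSuccEquiv_X_succ, map_mul]

theorem fse_symm_C {A : Type} [CommRing A] (k : ℕ) (q : MvPolynomial (Fin k) A) :
    (MvPolynomial.finSuccEquiv A k).symm (Polynomial.C q) = MvPolynomial.rename Fin.succ q := by
  rw [AlgEquiv.symm_apply_eq, fse_rename]

theorem fse_symm_X {A : Type} [CommRing A] (k : ℕ) :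
    (MvPolynomial.finSuccEquiv A k).symm Polynomial.X = MvPolynomial.X 0 := by
  rw [AlgEquiv.symm_apply_eq, MvPolynomial.finSuccEquiv_X_zero]

theorem cc_eq {A : Type} [CommRing A] (k : ℕ) (s : Polynomial (MvPolynomial (Fin k) A)) :
    MvPolynomial.constantCoeff ((MvPolynomial.finSuccEquiv A k).symm s)
      = MvPolynomial.constantCoeff (Polynomial.evalRingHom 0 s) := by
  obtain ⟨t, rfl⟩ := (MvPolynomial.finSuccEquiv A k).surjective s
  rw [AlgEquiv.symm_apply_apply]
  induction t using MvPolynomial.induction_on with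
  | C a => simp [MvPolynomial.finSuccEquiv_apply]
  | add p q hp hq => rw [map_add, map_add, map_add, map_add, hp, hq]
  | mul_X p i hp =>
    rw [map_mul, map_mul, map_mul, map_mul, hp]
    congr 1
    refine Fin.cases ?_ (fun j => ?_) i
    · rw [MvPolynomial.finSuccEquiv_X_zero]; simp
    · rw [MvPolynomial.finSuccEquiv_X_succ]; simp

theorem step (hS : STEP) (hI : ISO) {A κ : Type} [CommRing A] [Field κ] (χ : A →+* κ) (k : ℕ)
    (M : Type) [AddCommGroup M] [Module (MvPolynomial (Fin (k + 1)) A) M]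
    (N₁ N₂ : Type) [AddCommGroup N₁] [Module (MvPolynomial (Fin k) A) N₁] [AddCommGroup N₂]
    [Module (MvPolynomial (Fin k) A) N₂] (π₁ : M →+ N₁) (ι₁ : N₁ →+ M) (π₂ : M →+ N₂)
    (ι₂ : N₂ →+ M) (s₁ s₂ : MvPolynomial (Fin k) A) (b : ℕ → ℕ)
    (hs₁ : (χ.comp MvPolynomial.constantCoeff) s₁ ≠ 0)
    (hs₂ : (χ.comp MvPolynomial.constantCoeff) s₂ ≠ 0)
    (h1 : ∀ x, π₁ (ι₁ x) = s₁ • x) (h2 : ∀ x, π₂ (ι₂ x) = s₂ • x)
    (hι₁ : ∀ (q : MvPolynomial (Fin k) A) (x : N₁),
      ι₁ (q • x) = MvPolynomial.rename Fin.succ q • ι₁ x)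
    (hι₂ : ∀ (q : MvPolynomial (Fin k) A) (x : N₂),
      ι₂ (q • x) = MvPolynomial.rename Fin.succ q • ι₂ x)
    (hπ₁ : ∀ (q : MvPolynomial (Fin k) A) (x : M),
      π₁ (MvPolynomial.rename Fin.succ q • x) = q • π₁ x)
    (hπ₂ : ∀ (q : MvPolynomial (Fin k) A) (x : M),
      π₂ (MvPolynomial.rename Fin.succ q • x) = q • π₂ x)
    (hX₁ : ∀ x, π₁ ((MvPolynomial.X 0 : MvPolynomial (Fin (k + 1)) A) • x) = 0)
    (hX₂ : ∀ x, (MvPolynomial.X 0 : MvPolynomial (Fin (k + 1)) A) • ι₂ x = 0)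
    (hB₁ : HB (χ.comp (MvPolynomial.constantCoeff (R := A) (σ := Fin k))) N₁ b)
    (hB₂ : HB (χ.comp (MvPolynomial.constantCoeff (R := A) (σ := Fin k))) N₂ b) :
    HB (χ.comp (MvPolynomial.constantCoeff (R := A) (σ := Fin (k + 1)))) M
      (fun i => b i + if i = 0 then 0 else b (i - 1)) := by
  let e := (MvPolynomial.finSuccEquiv A k).symm
  letI i1 : Module (Polynomial (MvPolynomial (Fin k) A)) M :=
    Module.compHom M (e : Polynomial (MvPolynomial (Fin k) A) →+* MvPolynomial (Fin (k + 1)) A)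
  letI i2 : Module (MvPolynomial (Fin k) A) M :=
    Module.compHom M
      ((e : Polynomial (MvPolynomial (Fin k) A) →+* MvPolynomial (Fin (k + 1)) A).comp
        Polynomial.C)
  have hC : ∀ (q : MvPolynomial (Fin k) A) (x : M),
      q • x = MvPolynomial.rename Fin.succ q • x := by
    intro q x
    show (e (Polynomial.C q)) • x = _
    rw [show e (Polynomial.C q) = _ from fse_symm_C k q]
  have hP : ∀ (q : Polynomial (MvPolynomial (Fin k) A)) (x : M), q • x = e q • x :=
    fun q x => rfl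
  haveI : IsScalarTower (MvPolynomial (Fin k) A) (Polynomial (MvPolynomial (Fin k) A)) M := by
    refine ⟨fun q p x => ?_⟩
    show e (q • p) • x = e (Polynomial.C q) • (e p • x)
    rw [Polynomial.smul_eq_C_mul, map_mul, mul_smul]
  let L1 : N₁ →ₗ[MvPolynomial (Fin k) A] M :=
    { toFun := ι₁
      map_add' := map_add ι₁
      map_smul' := fun q x => by
        rw [hι₁, RingHom.id_apply, hC] }
  let L2 : N₂ →ₗ[MvPolynomial (Fin k) A] M :=
    { toFun := ι₂
      map_add' := map_add ι₂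
      map_smul' := fun q x => by
        rw [hι₂, RingHom.id_apply, hC] }
  let P1 : M →ₗ[MvPolynomial (Fin k) A] N₁ :=
    { toFun := π₁
      map_add' := map_add π₁
      map_smul' := fun q x => by
        rw [hC, hπ₁, RingHom.id_apply] }
  let P2 : M →ₗ[MvPolynomial (Fin k) A] N₂ :=
    { toFun := π₂
      map_add' := map_add π₂
      map_smul' := fun q x => by
        rw [hC, hπ₂, RingHom.id_apply] }
  have key := hS (MvPolynomial (Fin k) A) κ (χ.comp MvPolynomial.constantCoeff) M N₁ N₂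
    L1 P1 L2 P2 s₁ s₂ b b hs₁ hs₂
    (by
      intro x
      show π₁ (e Polynomial.X • x) = 0
      rw [show e Polynomial.X = _ from fse_symm_X k]
      exact hX₁ x)
    (fun x => h1 x)
    (by
      intro x
      show e Polynomial.X • ι₂ x = 0
      rw [show e Polynomial.X = _ from fse_symm_X k]
      exact hX₂ x)
    (fun x => h2 x) hB₁ hB₂
  refine hI (Polynomial (MvPolynomial (Fin k) A)) (MvPolynomial (Fin (k + 1)) A) κ
    e.toRingEquiv _ _ M M (AddEquiv.refl M) _ ?_ ?_ key
  · intro s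
    show χ (MvPolynomial.constantCoeff (e s)) = χ (MvPolynomial.constantCoeff _)
    rw [show MvPolynomial.constantCoeff (e s) = _ from cc_eq k s]
  · intro s x
    rfl

theorem main : GRCUT → STEP → ISO → GRD := by
  intro hG hS hI A κ _ _ _ χ c k
  induction k with
  | zero =>
    intro M _ _ _ _ _ ℳ hint hX hNZ hsub
    have hT : NZ χ (⊤ : Submodule A M) := by
      obtain ⟨x, hx⟩ := hNZ
      refine ⟨⟨x, trivial⟩, fun s hs h0 => hx s hs ?_⟩
      exact congrArg Subtype.val h0
    refine hI A (MvPolynomial (Fin 0) A) κ (MvPolynomial.isEmptyRingEquiv A (Fin 0)).symm χ _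
      (⊤ : Submodule A M) M (Submodule.topEquiv (R := A) (M := M)).toAddEquiv _ ?_ ?_
      (hsub ⊤ hT)
    · intro s
      rw [MvPolynomial.isEmptyRingEquiv_symm_apply, RingHom.comp_apply,
        MvPolynomial.constantCoeff_C]
    · intro s x
      rw [MvPolynomial.isEmptyRingEquiv_symm_apply]
      have : (MvPolynomial.C s : MvPolynomial (Fin 0) A) • (x : M) = s • (x : M) :=
        algebraMap_smul (MvPolynomial (Fin 0) A) s (x : M)
      exact this.symm
  | succ k ih =>
    intro M _ _ _ _ _ ℳ hint hX hNZ hsub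
    obtain ⟨N₁, m₁, t₁, 𝒩₁, π₁, ι₁, s₁, hint₁, hX₁, hNZ₁, hs₁, hπι₁, hι₁, hπ₁, hlow, _⟩ :=
      hG A κ χ k M ℳ hint hX hNZ false
    obtain ⟨N₂, m₂, t₂, 𝒩₂, π₂, ι₂, s₂, hint₂, hX₂, hNZ₂, hs₂, hπι₂, hι₂, hπ₂, _, hhigh⟩ :=
      hG A κ χ k M ℳ hint hX hNZ true
    have hB₁ := ih N₁ 𝒩₁ hint₁ hX₁ hNZ₁ (sub_HB hI χ M _ N₁ hsub)
    have hB₂ := ih N₂ 𝒩₂ hint₂ hX₂ hNZ₂ (sub_HB hI χ M _ N₂ hsub)
    have key := step hS hI χ k M N₁ N₂ π₁.toAddMonoidHom ι₁.toAddMonoidHom π₂.toAddMonoidHom
      ι₂.toAddMonoidHom (MvPolynomial.C s₁) (MvPolynomial.C s₂) (fun i => (c + k).choose i)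
      (by rw [RingHom.comp_apply, MvPolynomial.constantCoeff_C]; exact hs₁)
      (by rw [RingHom.comp_apply, MvPolynomial.constantCoeff_C]; exact hs₂)
      (by
        intro x
        have : (MvPolynomial.C s₁ : MvPolynomial (Fin k) A) • x = s₁ • x :=
          algebraMap_smul (MvPolynomial (Fin k) A) s₁ x
        rw [this]; exact hπι₁ x)
      (by
        intro x
        have : (MvPolynomial.C s₂ : MvPolynomial (Fin k) A) • x = s₂ • x :=
          algebraMap_smul (MvPolynomial (Fin k) A) s₂ x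
        rw [this]; exact hπι₂ x)
      hι₁ hι₂ hπ₁ hπ₂ (hlow rfl) (hhigh rfl) hB₁ hB₂
    have hb : (fun i => (c + (k + 1)).choose i)
        = (fun i => (c + k).choose i + if i = 0 then 0 else (c + k).choose (i - 1)) := by
      funext i
      cases i with
      | zero => simp
      | succ i =>
        rw [← add_assoc, Nat.choose_succ_succ]
        simp only [Nat.succ_ne_zero, if_false, Nat.add_sub_cancel, Nat.succ_eq_add_one]
        omega
    rw [hb]
    exact key

end Pool.Agent.W863.BEGRD
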