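import Pool.Agent.W982.TA.Stm

/-! # A triangulation with areas at most 1 gives a medial family -/

set_option autoImplicit false

namespace Pool.Agent.W982.TA
namespace G14

theorem mem_oseg {p q : Pt} {z : ℝ × ℝ} (h : z ∈ oseg p q) :
    ∃ t : ℝ, 0 < t ∧ t < 1 ∧ z.1 = (1 - t) * p.1 + t * q.1 ∧ z.2 = (1 - t) * p.2 + t * q.2 := by
  obtain ⟨a, b, ha, hb, hab, rfl⟩ := h
  have h1 : a = 1 - b := by linarith
  subst h1
  exact ⟨b, hb, by linarith, by simp [emb], by simp [emb]⟩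

theorem mem_oseg' {p q r : Pt} {t : ℝ} (h0 : 0 < t) (h1 : t < 1)
    (e1 : (r.1 : ℝ) = (1 - t) * p.1 + t * q.1) (e2 : (r.2 : ℝ) = (1 - t) * p.2 + t * q.2) :
    emb r ∈ oseg p q := by
  refine ⟨1 - t, t, by linarith, h0, by ring, ?_⟩
  apply Prod.ext
  · simp only [emb, Prod.fst_add, Prod.smul_fst, smul_eq_mul]
    exact e1.symm
  · simp only [emb, Prod.snd_add, Prod.smul_snd, smul_eq_mul]
    exact e2.symm

theorem oseg_symm (p q : Pt) : oseg p q = oseg q p := openSegment_symm ℝ _ _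

theorem memS {X Y : ℤ} {M : Finset Pt} (hM : M ⊆ ibox X Y) {r : Pt} (h1 : 0 ≤ r.1)
    (h2 : r.1 ≤ X) (h3 : 0 ≤ r.2) (h4 : r.2 ≤ Y) (h : r.1 = 0 ∨ r.1 = X ∨ r.2 = 0 ∨ r.2 = Y) :
    r ∈ box X Y \ M := by
  rw [Finset.mem_sdiff]
  constructor
  · unfold box
    rw [Finset.mem_product, Finset.mem_Icc, Finset.mem_Icc]
    exact ⟨⟨h1, h2⟩, h3, h4⟩
  · intro hr
    have h5 := hM hr
    unfold ibox at h5
    rw [Finset.mem_product, Finset.mem_Ioo, Finset.mem_Ioo] at h5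
    omega

theorem coS {X Y : ℤ} {M : Finset Pt} {r : Pt} (h : r ∈ box X Y \ M) :
    0 ≤ r.1 ∧ r.1 ≤ X ∧ 0 ≤ r.2 ∧ r.2 ≤ Y := by
  have h1 := (Finset.mem_sdiff.1 h).1
  unfold box at h1
  rw [Finset.mem_product, Finset.mem_Icc, Finset.mem_Icc] at h1
  exact ⟨h1.1.1, h1.1.2, h1.2.1, h1.2.2⟩

theorem botaux {S : Finset Pt} {T : Set (Sym2 Pt)} (hT : IsTriangulation S T)
    (h1 : (((1 : ℤ), (0 : ℤ)) : Pt) ∈ S) {p q : Pt} (hpq : s(p, q) ∈ T) (hp : 0 ≤ p.1)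
    (hp2 : p.2 = 0) (hq2 : q.2 = 0) (hlt : p.1 < q.1) {t u : ℝ} (ht1 : t < 1)
    (hu0 : 0 < u) (e : t = (1 - u) * p.1 + u * q.1) :
    s(p, q) = s(((0 : ℤ), (0 : ℤ)), ((1 : ℤ), (0 : ℤ))) := by
  have hltR : (p.1 : ℝ) < q.1 := by exact_mod_cast hlt
  have h2 : (p.1 : ℝ) < 1 := by nlinarith
  have h3 : p.1 < 1 := by exact_mod_cast h2
  have h4 : p.1 = 0 := by omega
  have hpe : p = (0, 0) := Prod.ext h4 hp2
  have h5 : q.1 = 1 := by
    by_contra h5
    have h6 : 2 ≤ q.1 := by omega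
    have h7 : (2 : ℝ) ≤ q.1 := by exact_mod_cast h6
    have h8 : (0 : ℝ) < q.1 := by linarith
    refine (hT.seg p q hpq).2.2.2 _ h1 (mem_oseg' (t := 1 / (q.1 : ℝ)) (by positivity) ?_ ?_ ?_)
    · rw [div_lt_one h8]
      linarith
    · rw [h4]
      push_cast
      field_simp
      ring
    · rw [hp2, hq2]
      push_cast
      ring
  have hqe : q = (1, 0) := Prod.ext h5 hq2
  rw [hpe, hqe]

theorem bot {X Y : ℤ} {M : Finset Pt} (hX : 0 < X) (hY : 0 < Y) (hM : M ⊆ ibox X Y)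
    {T : Set (Sym2 Pt)} (hT : IsTriangulation (box X Y \ M) T) :
    s((((0 : ℤ), (0 : ℤ)) : Pt), (((1 : ℤ), (0 : ℤ)) : Pt)) ∈ T := by
  have m0 : (((0 : ℤ), (0 : ℤ)) : Pt) ∈ box X Y \ M :=
    memS hM le_rfl hX.le le_rfl hY.le (Or.inl rfl)
  have m1 : (((1 : ℤ), (0 : ℤ)) : Pt) ∈ box X Y \ M :=
    memS hM (by norm_num) hX le_rfl hY.le (Or.inr (Or.inr (Or.inl rfl)))
  refine hT.maximal _ _ ⟨m0, m1, by simp, ?_⟩ ?_
  · intro r _ hr
    obtain ⟨t, h0, h1, e1, -⟩ := mem_oseg hr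
    simp only [emb] at e1
    push_cast at e1
    have h2 : (0 : ℝ) < r.1 := by linarith
    have h3 : (r.1 : ℝ) < 1 := by linarith
    have h4 : 0 < r.1 := by exact_mod_cast h2
    have h5 : r.1 < 1 := by exact_mod_cast h3
    omega
  · intro p' q' hpq hne
    rw [Set.disjoint_left]
    intro z hz hz'
    obtain ⟨t, h0, h1, e1, e2⟩ := mem_oseg hz
    obtain ⟨u, k0, k1, f1, f2⟩ := mem_oseg hz'
    push_cast at e1 e2
    obtain ⟨hp, hq, hpq', -⟩ := hT.seg p' q' hpq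
    obtain ⟨a1, -, a3, -⟩ := coS hp
    obtain ⟨b1, -, b3, -⟩ := coS hq
    have a3' : (0 : ℝ) ≤ p'.2 := by exact_mod_cast a3
    have b3' : (0 : ℝ) ≤ q'.2 := by exact_mod_cast b3
    have hz2 : (1 - u) * (p'.2 : ℝ) + u * q'.2 = 0 := by rw [← f2, e2]; ring
    have hp2 : p'.2 = 0 := by
      have h2 : (p'.2 : ℝ) = 0 := by
        by_contra h
        have h3 : (0 : ℝ) < p'.2 := lt_of_le_of_ne a3' (Ne.symm h)
        nlinarith [mul_pos (sub_pos.2 k1) h3, mul_nonneg k0.le b3']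
      exact_mod_cast h2
    have hq2 : q'.2 = 0 := by
      have h2 : (q'.2 : ℝ) = 0 := by
        by_contra h
        have h3 : (0 : ℝ) < q'.2 := lt_of_le_of_ne b3' (Ne.symm h)
        nlinarith [mul_pos k0 h3, mul_nonneg (sub_pos.2 k1).le a3']
      exact_mod_cast h2
    have e : t = (1 - u) * (p'.1 : ℝ) + u * q'.1 := by rw [← f1, e1]; ring
    rcases lt_trichotomy p'.1 q'.1 with h | h | h
    · exact hne (botaux hT m1 hpq a1 hp2 hq2 h h1 k0 e).symm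
    · exact hpq' (Prod.ext h (hp2.trans hq2.symm))
    · rw [Sym2.eq_swap] at hpq
      have e' : t = (1 - (1 - u)) * (q'.1 : ℝ) + (1 - u) * p'.1 := by rw [e]; ring
      have h2 := botaux hT m1 hpq b1 hq2 hp2 h h1 (sub_pos.2 k1) e'
      rw [Sym2.eq_swap] at h2
      exact hne h2.symm

theorem corner {X Y : ℤ} {M : Finset Pt} (hX : 0 < X) (hY : 0 < Y) (hM : M ⊆ ibox X Y)
    {q : Pt} (hq : q ∈ ibox X Y) {a b : Pt} (hab : a ≠ b) (h : 0 ≤ dt a b q) :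
    ∃ s ∈ box X Y \ M, 0 < dt a b s := by
  unfold ibox at hq
  rw [Finset.mem_product, Finset.mem_Ioo, Finset.mem_Ioo] at hq
  obtain ⟨⟨q1, q2⟩, q3, q4⟩ := hq
  unfold dt at h
  have hd : b.1 - a.1 ≠ 0 ∨ b.2 - a.2 ≠ 0 := by
    by_contra hcon
    push Not at hcon
    exact hab (Prod.ext (by omega) (by omega))
  rcases le_or_gt 0 (b.1 - a.1) with h1 | h1 <;> rcases le_or_gt 0 (b.2 - a.2) with h2 | h2
  · refine ⟨(0, Y), memS hM le_rfl hX.le hY.le le_rfl (Or.inl rfl), ?_⟩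
    unfold dt
    show 0 < (b.1 - a.1) * (Y - a.2) - (b.2 - a.2) * (0 - a.1)
    rcases hd with hd | hd
    · have : 0 < b.1 - a.1 := by omega
      nlinarith [mul_pos this (sub_pos.2 q4), mul_nonneg h2 q1.le]
    · have : 0 < b.2 - a.2 := by omega
      nlinarith [mul_nonneg h1 (sub_pos.2 q4).le, mul_pos this q1]
  · refine ⟨(X, Y), memS hM hX.le le_rfl hY.le le_rfl (Or.inr (Or.inl rfl)), ?_⟩
    unfold dt
    show 0 < (b.1 - a.1) * (Y - a.2) - (b.2 - a.2) * (X - a.1)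
    nlinarith [mul_nonneg h1 (sub_pos.2 q4).le, mul_pos (neg_pos.2 h2) (sub_pos.2 q2)]
  · refine ⟨(0, 0), memS hM le_rfl hX.le le_rfl hY.le (Or.inl rfl), ?_⟩
    unfold dt
    show 0 < (b.1 - a.1) * (0 - a.2) - (b.2 - a.2) * (0 - a.1)
    nlinarith [mul_pos (neg_pos.2 h1) q3, mul_nonneg h2 q1.le]
  · refine ⟨(X, 0), memS hM hX.le le_rfl le_rfl hY.le (Or.inr (Or.inl rfl)), ?_⟩
    unfold dt
    show 0 < (b.1 - a.1) * (0 - a.2) - (b.2 - a.2) * (X - a.1)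
    nlinarith [mul_pos (neg_pos.2 h1) q3, mul_pos (neg_pos.2 h2) (sub_pos.2 q2)]

/-- every missing point is the midpoint of an edge -/
theorem mid (h1 : TaskG1) (h9 : TaskG9) (h10 : TaskG10) (h11 : TaskG11) {X Y : ℤ}
    {M : Finset Pt} (hX : 0 < X) (hY : 0 < Y) (hM : M ⊆ ibox X Y) {T : Set (Sym2 Pt)}
    (hT : IsTriangulation (box X Y \ M) T)
    (hA : ∀ a b c, IsTri (box X Y \ M) T a b c → |dt a b c| ≤ 2) {q : Pt} (hq : q ∈ M) :
    ∃ v : Pt, Int.gcd v.1 v.2 = 1 ∧ s(q - v, q + v) ∈ T := by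
  have hqS : q ∉ box X Y \ M := fun h => (Finset.mem_sdiff.1 h).2 hq
  have fin : ∀ a b c : Pt, 0 < dt a b c → IsTri (box X Y \ M) T a b c → InTri a b c q →
      ∃ v : Pt, Int.gcd v.1 v.2 = 1 ∧ s(q - v, q + v) ∈ T := by
    intro a b c hpos htri hin
    have h2 := hA a b c htri
    rw [abs_of_pos hpos] at h2
    have ha := (hT.seg a b htri.1).1
    have hb := (hT.seg a b htri.1).2.1
    have hc := (hT.seg b c htri.2.1).2.1
    rcases h11 a b c q hpos h2 hin (fun h => hqS (h ▸ ha)) (fun h => hqS (h ▸ hb))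
      (fun h => hqS (h ▸ hc)) with ⟨v, hv, h⟩ | ⟨v, hv, h⟩ | ⟨v, hv, h⟩
    · exact ⟨v, hv, h ▸ htri.1⟩
    · exact ⟨v, hv, h ▸ htri.2.1⟩
    · exact ⟨v, hv, h ▸ htri.2.2.1⟩
  by_cases hon : ∃ p r, s(p, r) ∈ T ∧ emb q ∈ oseg p r
  · obtain ⟨p, r, hpr, hz⟩ := hon
    have hne := (hT.seg p r hpr).2.2.1
    have h0 : dt p r q = 0 := by
      obtain ⟨t, -, -, e1, e2⟩ := mem_oseg hz
      simp only [emb] at e1 e2
      have h2 : ((dt p r q : ℤ) : ℝ) = 0 := by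
        unfold dt
        push_cast
        rw [e1, e2]
        ring
      exact_mod_cast h2
    obtain ⟨c, hc, htri, -⟩ := h9 _ T hT p r hpr (corner hX hY hM (hM hq) hne h0.ge)
    refine fin p r c hc htri ((h1 p r c q hc).1 ?_)
    have h3 : oseg p r ⊆ convexHull ℝ {emb p, emb r, emb c} := by
      refine (openSegment_subset_segment ℝ _ _).trans ?_
      exact (convex_convexHull ℝ _).segment_subset (subset_convexHull ℝ _ (by simp))
        (subset_convexHull ℝ _ (by simp))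
    exact h3 hz
  · push Not at hon
    have hq' := hM hq
    unfold ibox at hq'
    rw [Finset.mem_product, Finset.mem_Ioo, Finset.mem_Ioo] at hq'
    have hne0 : dt (((0 : ℤ), (0 : ℤ)) : Pt) (((1 : ℤ), (0 : ℤ)) : Pt) q ≠ 0 := by
      unfold dt
      simp only [sub_zero, sub_self, zero_mul, one_mul]
      omega
    obtain ⟨a, b, hab, hpos, z, hz, hv1, hv2⟩ :=
      h10 _ T hT q hqS ⟨_, _, bot hX hY hM hT, hne0⟩ hon
    obtain ⟨c, hc, htri, hin⟩ := h9 _ T hT a b hab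
      (corner hX hY hM (hM hq) (hT.seg a b hab).2.2.1 hpos.le)
    exact fin a b c hc htri (hin z hz q hpos hqS hv1 hon hv2)

theorem sum_eq {p q a b : Pt} (h : s(p, q) = s(a, b)) : p + q = a + b := by
  rcases Sym2.eq_iff.1 h with ⟨rfl, rfl⟩ | ⟨rfl, rfl⟩
  · rfl
  · exact add_comm _ _

theorem two {q v a b : Pt} (h : s(q - v, q + v) = s(a, b)) : q + q = a + b := by
  rw [← sum_eq h]
  abel

end G14

open G14 in
theorem g14 (h1 : TaskG1) (h3 : TaskG3) (h9 : TaskG9) (h10 : TaskG10) (h11 : TaskG11)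
    (h16 : TaskG16) : TaskG14 := by
  intro X Y M hX hY hM hmin
  obtain ⟨T, hT, hAr⟩ := hmin
  have hA : ∀ a b c, IsTri (box X Y \ M) T a b c → |dt a b c| ≤ 2 := by
    intro a b c h
    have h2 := hAr a b c h
    rw [div_le_iff₀ (by norm_num)] at h2
    have h4 : ((|dt a b c| : ℤ) : ℚ) ≤ ((2 : ℤ) : ℚ) := by
      push_cast at h2 ⊢
      linarith
    exact_mod_cast h4
  have key : ∀ q ∈ M, ∃ v : Pt, Int.gcd v.1 v.2 = 1 ∧ s(q - v, q + v) ∈ T :=
    fun q hq => mid h1 h9 h10 h11 hX hY hM hT hA hq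
  choose! e he using key
  refine ⟨e, fun q hq => (he q hq).1, fun q hq => (hT.seg _ _ (he q hq).2).2.1,
    fun q hq => (hT.seg _ _ (he q hq).2).1, ?_, ?_⟩
  · intro q hq q' hq' hne hcr
    refine h3 _ _ _ _ hcr (hT.noncross _ _ _ _ (he q hq).2 (he q' hq').2 fun h => hne ?_)
    have h2 := two h
    have h4 : q' - e q' + (q' + e q') = q' + q' := by abel
    rw [h4] at h2
    have h5 := congrArg Prod.fst h2
    have h6 := congrArg Prod.snd h2
    simp only [Prod.fst_add, Prod.snd_add] at h5 h6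
    exact Prod.ext (by omega) (by omega)
  · have main : ∀ q₁ ∈ M, ∀ q₂ ∈ M, ∀ q₃ ∈ M, ∀ a b c : Pt,
        s(q₁ - e q₁, q₁ + e q₁) = s(b, c) → s(q₂ - e q₂, q₂ + e q₂) = s(a, c) →
        s(q₃ - e q₃, q₃ + e q₃) = s(a, b) → dt a b c ≠ 4 := by
      intro q₁ m1 q₂ m2 q₃ m3 a b c e1 e2 e3 h4
      have hpos : 0 < dt a b c := by omega
      have htri : IsTri (box X Y \ M) T a b c := by
        refine ⟨e3 ▸ (he q₃ m3).2, e1 ▸ (he q₁ m1).2, e2 ▸ (he q₂ m2).2, hpos.ne', ?_⟩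
        intro r hr hin
        rcases h16 a b c q₁ q₂ q₃ (two e1) (two e2) (two e3) h4 r
          ((h1 a b c r hpos).1 hin) with h | h | h | h | h | h
        · exact Or.inl h
        · exact Or.inr (Or.inl h)
        · exact Or.inr (Or.inr h)
        · exact absurd (h ▸ m1) (Finset.mem_sdiff.1 hr).2
        · exact absurd (h ▸ m2) (Finset.mem_sdiff.1 hr).2
        · exact absurd (h ▸ m3) (Finset.mem_sdiff.1 hr).2
      have h5 := hA a b c htri
      rw [abs_of_pos hpos, h4] at h5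
      norm_num at h5
    intro q₁ m1 q₂ m2 q₃ m3 a b c e1 e2 e3 h4
    rcases (abs_eq (by norm_num : (0 : ℤ) ≤ 4)).1 h4 with h | h
    · exact main q₁ m1 q₂ m2 q₃ m3 a b c e1 e2 e3 h
    · refine main q₂ m2 q₁ m1 q₃ m3 b a c e2 e1 (e3.trans Sym2.eq_swap) ?_
      have h5 : dt b a c = - dt a b c := by
        unfold dt
        ring
      rw [h5, h]
      norm_num

end Pool.Agent.W982.TA
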